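import Pool.Agent.SGL.StmtsA

set_option autoImplicit false

/-!
# SGL, row ROC: a cyclic list may be started at any element
-/

namespace Pool.Agent.SGL.H9

open Pool.Agent.SGE Pool.Agent.SGP Pool.Agent.SGY Pool.Agent.SGD Pool.Agent.SGL

/-- **ROC**. -/
theorem roc : RocStmt := by
  intro V E Φ z v w h hw
  obtain ⟨l, hc, hn, hm⟩ := h
  have hw' : w ∈ v :: l := (hm w).1 hw
  rcases List.mem_cons.1 hw' with rfl | hl
  · exact ⟨l, hc, hn, hm⟩
  · obtain ⟨l₁, l₂, rfl⟩ := List.append_of_mem hl
    have e1 : v :: ((l₁ ++ w :: l₂) ++ [v]) = (v :: l₁) ++ (w :: (l₂ ++ [v])) := by simp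
    rw [e1, List.isChain_append] at hc
    obtain ⟨c1, c2, c3⟩ := hc
    have e2 : v :: (l₁ ++ w :: l₂) = (v :: l₁) ++ (w :: l₂) := by simp
    have e3 : w :: (l₂ ++ v :: l₁) = (w :: l₂) ++ (v :: l₁) := by simp
    refine ⟨l₂ ++ v :: l₁, ?_, ?_, ?_⟩
    · have e4 : w :: ((l₂ ++ v :: l₁) ++ [w]) = (w :: l₂) ++ ((v :: l₁) ++ [w]) := by simp
      rw [e4, List.isChain_append]
      have e5 : w :: (l₂ ++ [v]) = (w :: l₂) ++ [v] := by simp
      rw [e5, List.isChain_append] at c2
      obtain ⟨d1, -, d3⟩ := c2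
      refine ⟨d1, ?_, ?_⟩
      · rw [List.isChain_append]
        refine ⟨c1, List.isChain_singleton _, ?_⟩
        intro x hx y hy
        simp only [List.head?_cons, Option.mem_def, Option.some.injEq] at hy
        subst hy
        exact c3 x hx w (by simp)
      · intro x hx y hy
        simp only [List.cons_append, List.head?_cons, Option.mem_def, Option.some.injEq] at hy
        subst hy
        exact d3 x hx v (by simp)
    · rw [e2] at hn
      rw [e3]
      exact (List.perm_append_comm.nodup_iff).1 hn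
    · intro x
      rw [hm x, e2, e3]
      simp only [List.mem_append]
      exact or_comm

end Pool.Agent.SGL.H9
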